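import Mathlib
import Pool.Agent.H294R3.Exist2
import Pool.Agent.H294R3.Rank

/-!
# MP_a68a03_ag, Q1 (Boguslavsky): dim-types of dim-maximal intersections of hypersurfaces

Let `F` be a field with more than `d` elements, for example a finite field with `q` elements where
`d < q - 1`. Let `𝒳_r` be the family of the projective varieties in `P^m` over `F` which are defined
by `r` linearly independent homogeneous polynomials of degree `d` in `F[x_0, ..., x_m]`. We show that
the lexicographically largest dim-type of an element of `𝒳_r` is `(ν_1, ..., ν_m)`, where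
`(ν_1, ..., ν_{m+1})` is the `r`-th element, in descending lexicographic order, of the set of the
exponent vectors of the monomials of degree `d` in `m + 1` variables.
-/

open MvPolynomial

namespace Pool.Agent.Results.MP_a68a03_ag.DimType

/-- The number of the irreducible components of codimension `j` in `P^m` of the projective variety
`V(I)` over the field `F`, where `I` is a homogeneous ideal of `F[x_0, ..., x_m]` and `1 ≤ j ≤ m`.

The irreducible components of `V(I)` are the varieties `V(P)` for the minimal primes `P` of `I`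
which are different from `(x_0, ..., x_m)`, and the dimension of `V(P)` is the Krull dimension of
its homogeneous coordinate ring `F[x_0, ..., x_m] ⧸ P` minus one, so `V(P)` has codimension `j` in
`P^m` if and only if the Krull dimension of this ring is `m + 1 - j`. -/
noncomputable def numComponents {F : Type} [Field F] {m : ℕ}
    (I : Ideal (MvPolynomial (Fin (m + 1)) F)) (j : ℕ) : ℕ :=
  Nat.card {P : Ideal (MvPolynomial (Fin (m + 1)) F) // P ∈ I.minimalPrimes ∧
    ringKrullDim (MvPolynomial (Fin (m + 1)) F ⧸ P) + (j : ℕ) = ((m + 1 : ℕ) : WithBot ℕ∞)}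

/-- The dim-type `(α_1, ..., α_m)` of `V(I)`; the entry with index `i : Fin m` is `α_{i+1}`. -/
noncomputable def dimType {F : Type} [Field F] {m : ℕ}
    (I : Ideal (MvPolynomial (Fin (m + 1)) F)) : Fin m → ℕ :=
  fun i => numComponents I (i.1 + 1)

/-- The dim-types of the elements `V(f_1, ..., f_r)` of the family `𝒳_r`, with the lexicographic
order. -/
def dimTypes (F : Type) [Field F] (m d r : ℕ) : Set (Lex (Fin m → ℕ)) :=
  {t | ∃ f : Fin r → MvPolynomial (Fin (m + 1)) F, LinearIndependent F f ∧
    (∀ i, (f i).IsHomogeneous d) ∧ t = toLex (dimType (Ideal.span (Set.range f)))}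

/-- `ν` is the `r`-th element of `Λ(d, m)`, the set of the vectors in `ℕ ^ (m + 1)` with sum `d`, in
descending lexicographic order: exactly `r` elements of this set are greater than or equal
to `ν`. -/
def IsRthVector (d m r : ℕ) (ν : Fin (m + 1) → ℕ) : Prop :=
  ∑ i, ν i = d ∧
    Nat.card {a : Fin (m + 1) → ℕ // ∑ i, a i = d ∧ toLex ν ≤ toLex a} = r

theorem result (F : Type) [Field F] (m d r : ℕ) (hF : (d : ℕ∞) < ENat.card F) (hr : 1 ≤ r)
    (hr' : r ≤ (m + d).choose d) :
    (∃! ν, IsRthVector d m r ν) ∧
      ∀ ν, IsRthVector d m r ν →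
        IsGreatest (dimTypes F m d r) (toLex fun i : Fin m => ν i.castSucc) := by
  refine ⟨Pool.Agent.H294R3.existsUnique_rth d m r hr hr', ?_⟩
  rintro ν ⟨hν, hcard⟩
  -- elements of the field
  obtain ⟨c, hc⟩ : ∃ c : ℕ → F, ∀ i ≤ d, ∀ j ≤ d, c i = c j → i = j := by
    rcases finite_or_infinite F with hfin | hinf
    · rw [ENat.card_eq_coe_natCard] at hF
      have hF' : d < Nat.card F := by exact_mod_cast hF
      let e := (Finite.equivFin F).symm
      refine ⟨fun i => if h : i < Nat.card F then e ⟨i, h⟩ else 0, fun i hi j hj hij => ?_⟩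
      simp only [dif_pos (lt_of_le_of_lt hi hF'), dif_pos (lt_of_le_of_lt hj hF')] at hij
      exact congrArg Fin.val (e.injective hij)
    · exact ⟨Infinite.natEmbedding F, fun i _ j _ hij => (Infinite.natEmbedding F).injective hij⟩
  constructor
  · -- the extremal configuration
    have hfin : Finite {a : Fin (m + 1) → ℕ // ∑ i, a i = d ∧ toLex ν ≤ toLex a} :=
      ((Pool.Agent.H294R3.Lam_finite d m).subset fun a ha => ha.1).to_subtype
    let e : Fin r ≃ {a : Fin (m + 1) → ℕ // ∑ i, a i = d ∧ toLex ν ≤ toLex a} :=
      (Finite.equivFinOfCardEq hcard).symm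
    refine ⟨fun t => Pool.Agent.H294R3.gp c (e t).1, ?_, ?_, ?_⟩
    · exact Pool.Agent.H294R3.gp_li hc (fun t => (e t).1)
        (fun s t h => e.injective (Subtype.ext h)) (fun t => (e t).2.1)
    · intro t
      have := Pool.Agent.H294R3.gp_hom c (e t).1
      rwa [(e t).2.1] at this
    · have h1 : Ideal.span (Set.range fun t => Pool.Agent.H294R3.gp c (e t).1) =
          Pool.Agent.H294R3.II c d ν := by
        rw [Pool.Agent.H294R3.II]
        congr 1
        ext p
        constructor
        · rintro ⟨t, rfl⟩
          exact ⟨(e t).1, (e t).2.1, (e t).2.2, rfl⟩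
        · rintro ⟨a, ha1, ha2, rfl⟩
          exact ⟨e.symm ⟨a, ha1, ha2⟩, by simp⟩
      rw [h1]
      congr 1
      funext j
      exact (Pool.Agent.H294R3.numComp_II hc hν j).symm
  · -- the upper bound
    rintro _ ⟨f, hli, hhom, rfl⟩
    by_contra hcon
    rw [not_le] at hcon
    have h1 := Pool.Agent.H294R3.bound_field hr f hli hhom
    have h2 : Pool.Agent.H294R3.Cnt
        (fun j : Fin m => Pool.Agent.H294R3.numComp (Ideal.span (Set.range f)) (j.1 + 1)) d <
          Pool.Agent.H294R3.Cnt (fun i : Fin m => ν i.castSucc) d := by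
      refine Set.ncard_lt_ncard ?_ (Pool.Agent.H294R3.Cnt_finite _ _)
      refine ⟨fun a ha => ⟨ha.1, hcon.le.trans ha.2⟩, fun hsub => ?_⟩
      have h3 : (fun i : Fin m => ν i.castSucc) ∈ {a : Fin m → ℕ | ∑ i, a i ≤ d ∧
          toLex (fun i : Fin m => ν i.castSucc) ≤ toLex a} := by
        refine ⟨?_, le_rfl⟩
        have := Pool.Agent.H294R3.init_sum hν
        change ∑ i : Fin m, ν i.castSucc ≤ d
        omega
      have h4 := hsub h3
      exact absurd h4.2 (not_le.2 hcon)
    rw [← Pool.Agent.H294R3.card_up hν, hcard] at h2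
    omega

end Pool.Agent.Results.MP_a68a03_ag.DimType
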